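import Pool.Agent.Q35.DP.Plan

set_option autoImplicit false
set_option linter.unusedSectionVars false

namespace Pool.Agent.Q119.DP

open Pool.Agent.Y166.DP Filter
open scoped ENNReal

theorem asym : StmAsym := by
  intro ι dm hodd heven hT
  choose! C hC using hT
  set S : ℕ → ℝ≥0∞ → ℝ≥0∞ := fun i Q => ∑' M : ι i, Q ^ dm i M with hS
  -- the limits of the terms
  have hlim : ∀ q : ℝ, 1 < q → Tendsto (fun d => S d (ENNReal.ofReal q) / ENNReal.ofReal q ^ d) atTop
      (nhds (ENNReal.ofReal (C q) - ENNReal.ofReal (C q) / ENNReal.ofReal q)) := by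
    intro q hq
    obtain ⟨_, ht⟩ := hC q hq
    set Q := ENNReal.ofReal q with hQ
    have hQ0 : Q ≠ 0 := by
      rw [hQ]
      exact (ENNReal.ofReal_pos.2 (by linarith)).ne'
    have hQt : Q ≠ ∞ := ENNReal.ofReal_ne_top
    set T : ℕ → ℝ≥0∞ := fun d => (∑ i ∈ Finset.Icc 1 d, S i Q) / Q ^ d with hTd
    have ht' : Tendsto T atTop (nhds (ENNReal.ofReal (C q))) := ht
    rw [← tendsto_add_atTop_iff_nat 1]
    have t1 : Tendsto (fun d => T (d + 1)) atTop (nhds (ENNReal.ofReal (C q))) :=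
      (tendsto_add_atTop_iff_nat 1).2 ht'
    have t2 : Tendsto (fun d => T d / Q) atTop (nhds (ENNReal.ofReal (C q) / Q)) :=
      ENNReal.Tendsto.div_const ht' (Or.inr hQ0)
    have t3 := ENNReal.Tendsto.sub t1 t2 (Or.inl ENNReal.ofReal_ne_top)
    refine t3.congr' ?_
    have hfin : ∀ᶠ d in atTop, T d < ∞ := ht'.eventually (eventually_lt_nhds ENNReal.ofReal_lt_top)
    filter_upwards [hfin] with d hd
    have e : T (d + 1) = S (d + 1) Q / Q ^ (d + 1) + T d / Q := by
      simp only [hTd]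
      rw [Finset.sum_Icc_succ_top (by omega), ENNReal.add_div, add_comm]
      congr 1
      rw [pow_succ, div_eq_mul_inv, div_eq_mul_inv, div_eq_mul_inv, mul_assoc,
        ENNReal.mul_inv (Or.inr hQt) (Or.inr hQ0)]
    rw [e]
    apply ENNReal.add_sub_cancel_right
    exact (ENNReal.div_lt_top hd.ne hQ0).ne
  set c : ℝ → ℝ≥0∞ := fun q => ENNReal.ofReal (C q) - ENNReal.ofReal (C q) / ENNReal.ofReal q with hc
  have hcfin : ∀ q, c q ≠ ∞ := fun q => ne_top_of_le_ne_top ENNReal.ofReal_ne_top tsub_le_self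
  -- monotonicity
  have hmono : ∀ q q' : ℝ, 1 < q → q ≤ q' → c q' ≤ c q := by
    intro q q' h1 h2
    refine le_of_tendsto_of_tendsto_of_frequently (hlim q' (by linarith)) (hlim q h1) ?_
    rw [frequently_atTop]
    intro a
    obtain ⟨p, hp1, hp2⟩ := Nat.exists_infinite_primes (max a 3)
    refine ⟨p, le_trans (le_max_left _ _) hp1, ?_⟩
    have h3 : 3 ≤ p := le_trans (le_max_right _ _) hp1
    have hodd' : Odd p := hp2.odd_of_ne_two (by omega)
    simp only [hS]
    rw [div_eq_mul_inv, div_eq_mul_inv, ← ENNReal.tsum_mul_right, ← ENNReal.tsum_mul_right]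
    refine ENNReal.tsum_le_tsum fun M => ?_
    have hdm := hodd p hp2 hodd' M
    have key : ∀ r : ℝ, 1 < r → ENNReal.ofReal r ^ dm p M * (ENNReal.ofReal r ^ p)⁻¹ =
        (ENNReal.ofReal r ^ (p - dm p M))⁻¹ := by
      intro r hr
      have r0 : ENNReal.ofReal r ≠ 0 := (ENNReal.ofReal_pos.2 (by linarith)).ne'
      have rt : ENNReal.ofReal r ≠ ∞ := ENNReal.ofReal_ne_top
      have e : ENNReal.ofReal r ^ p = ENNReal.ofReal r ^ dm p M * ENNReal.ofReal r ^ (p - dm p M) := by
        rw [← pow_add]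
        congr 1
        omega
      rw [e, ENNReal.mul_inv (Or.inl (pow_ne_zero _ r0)) (Or.inl (ENNReal.pow_ne_top rt)),
        ← mul_assoc, ENNReal.mul_inv_cancel (pow_ne_zero _ r0) (ENNReal.pow_ne_top rt), one_mul]
    rw [key q h1, key q' (by linarith)]
    apply ENNReal.inv_le_inv.2
    gcongr
  have hlow : ∀ q : ℝ, 1 < q → ENNReal.ofReal q ≤ c q := by
    intro q hq
    refine ge_of_tendsto_of_frequently (hlim q hq) ?_
    rw [frequently_atTop]
    intro a
    refine ⟨2 * (a + 2), by omega, ?_⟩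
    obtain ⟨M, hM⟩ := heven (a + 2) (by omega)
    have r0 : ENNReal.ofReal q ≠ 0 := (ENNReal.ofReal_pos.2 (by linarith)).ne'
    have rt : ENNReal.ofReal q ≠ ∞ := ENNReal.ofReal_ne_top
    have r1 : 1 ≤ ENNReal.ofReal q := by
      rw [← ENNReal.ofReal_one]
      exact ENNReal.ofReal_le_ofReal hq.le
    rw [ENNReal.le_div_iff_mul_le (Or.inl (pow_ne_zero _ r0)) (Or.inl (ENNReal.pow_ne_top rt))]
    calc ENNReal.ofReal q * ENNReal.ofReal q ^ (2 * (a + 2))
        = ENNReal.ofReal q ^ (2 * (a + 2) + 1) := by rw [pow_succ, mul_comm]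
      _ ≤ ENNReal.ofReal q ^ dm (2 * (a + 2)) M := pow_le_pow_right₀ r1 hM
      _ ≤ S (2 * (a + 2)) (ENNReal.ofReal q) :=
          ENNReal.le_tsum (f := fun M => ENNReal.ofReal q ^ dm (2 * (a + 2)) M) M
  -- the contradiction
  have h2 : (2 : ℝ) ≤ (c 2).toReal + 2 := by
    have := ENNReal.toReal_nonneg (a := c 2)
    linarith
  have h3 := (hlow ((c 2).toReal + 2) (by linarith)).trans (hmono 2 _ (by norm_num) h2)
  rw [ENNReal.ofReal_le_iff_le_toReal (hcfin 2)] at h3
  linarith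

end Pool.Agent.Q119.DP
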