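import Pool.Agent.Q35.DP.Plan

set_option autoImplicit false
set_option linter.unusedSectionVars false

namespace Pool.Agent.Q119.DP

open Pool.Agent.Y166.DP Pool.Agent.Q35.DP Polynomial

/-- The derivative of a value of a polynomial with constant coefficients. -/
theorem der_eval {k : Type} [Field k] (D : Derivation ℤ k k) (P : k[X])
    (hP : ∀ i, D (P.coeff i) = 0) (a : k) : D (P.eval a) = P.derivative.eval a * D a := by
  rw [eval_eq_sum, derivative_eval, Polynomial.sum, Polynomial.sum, map_sum, Finset.sum_mul]
  refine Finset.sum_congr rfl fun i _ => ?_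
  rw [D.leibniz, hP i, D.leibniz_pow]
  simp only [smul_eq_mul, nsmul_eq_mul, mul_zero, add_zero]
  ring

/-- An element algebraic over the constants is a constant. -/
theorem der_alg {k : Type} [Field k] [CharZero k] (D : Derivation ℤ k k) (a : k) :
    ∀ (n : ℕ) (P : k[X]), P.natDegree = n → P ≠ 0 → (∀ i, D (P.coeff i) = 0) → P.eval a = 0 →
      D a = 0 := by
  intro n
  induction n using Nat.strong_induction_on with
  | _ n ih =>
    intro P hn hne hc h0
    have h1 := der_eval D P hc a
    rw [h0, map_zero] at h1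
    rcases mul_eq_zero.1 h1.symm with h2 | h2
    swap
    · exact h2
    by_cases hd : P.natDegree = 0
    · exfalso
      rw [eq_C_of_natDegree_eq_zero hd, eval_C] at h0
      apply hne
      rw [eq_C_of_natDegree_eq_zero hd, h0, map_zero]
    have hlt : P.derivative.natDegree < P.natDegree := natDegree_derivative_lt hd
    refine ih _ (hn ▸ hlt) P.derivative rfl ?_ ?_ h2
    · intro h
      exact hd (derivative_eq_zero.1 h)
    · intro i
      rw [coeff_derivative, D.leibniz, hc]
      have : D ((i : k) + 1) = 0 := by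
        rw [map_add, D.map_natCast, D.map_one_eq_zero, add_zero]
      rw [this, smul_zero, smul_zero, add_zero]

theorem fix : S_FIX := by
  intro k _ _ D lam a b hlam heq N r hr hD hsum
  -- the polynomials `p` and `q`
  set p : k[X] := ∑ j : Fin N, if (j : ℕ) = 0 then C (r j) else
    if (j : ℕ) % 2 = 1 then C (r j) * X ^ (((j : ℕ) + 1) / 2) else 0 with hp
  set q : k[X] := ∑ j : Fin N, if (j : ℕ) = 0 then 0 else
    if (j : ℕ) % 2 = 1 then 0 else C (r j) * X ^ (((j : ℕ) - 2) / 2) with hq
  have hpq : p.eval a + q.eval a * b = 0 := by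
    rw [← hsum, hp, hq, eval_finsetSum, eval_finsetSum, Finset.sum_mul, ← Finset.sum_add_distrib]
    refine Finset.sum_congr rfl fun j _ => ?_
    unfold fn
    split_ifs <;> simp <;> ring
  have hpc : ∀ i, D (p.coeff i) = 0 := by
    intro i
    rw [hp, finsetSum_coeff, map_sum]
    refine Finset.sum_eq_zero fun j _ => ?_
    split_ifs
    · rw [coeff_C]
      split_ifs
      · exact hD j
      · exact map_zero D
    · rw [coeff_C_mul_X_pow]
      split_ifs
      · exact hD j
      · exact map_zero D
    · simp
  have hqc : ∀ i, D (q.coeff i) = 0 := by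
    intro i
    rw [hq, finsetSum_coeff, map_sum]
    refine Finset.sum_eq_zero fun j _ => ?_
    split_ifs
    · simp
    · simp
    · rw [coeff_C_mul_X_pow]
      split_ifs
      · exact hD j
      · exact map_zero D
  have hne : p ≠ 0 ∨ q ≠ 0 := by
    by_contra hcon
    push Not at hcon
    obtain ⟨h1, h2⟩ := hcon
    apply hr
    funext j
    by_cases hj : (j : ℕ) = 0 ∨ (j : ℕ) % 2 = 1
    · have e := congrArg (fun P => coeff P (((j : ℕ) + 1) / 2)) h1
      simp only [coeff_zero] at e
      rw [hp, finsetSum_coeff, Finset.sum_eq_single j] at e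
      · rcases hj with h0 | h0
        · rw [if_pos h0, h0, coeff_C] at e
          simpa using e
        · rw [if_neg (by omega), if_pos h0, coeff_C_mul_X_pow, if_pos rfl] at e
          exact e
      · intro i _ hij
        have hij' : (i : ℕ) ≠ j := fun h => hij (Fin.ext h)
        split_ifs with h3 h4
        · rw [coeff_C, if_neg (by omega)]
        · rw [coeff_C_mul_X_pow, if_neg (by omega)]
        · simp
      · intro h
        exact absurd (Finset.mem_univ _) h
    · push Not at hj
      have e := congrArg (fun P => coeff P (((j : ℕ) - 2) / 2)) h2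
      simp only [coeff_zero] at e
      rw [hq, finsetSum_coeff, Finset.sum_eq_single j] at e
      · rw [if_neg hj.1, if_neg hj.2, coeff_C_mul_X_pow, if_pos rfl] at e
        exact e
      · intro i _ hij
        have hij' : (i : ℕ) ≠ j := fun h => hij (Fin.ext h)
        split_ifs with h3 h4
        · simp
        · simp
        · rw [coeff_C_mul_X_pow, if_neg (by omega)]
      · intro h
        exact absurd (Finset.mem_univ _) h
  set c : k[X] := X * (X - C 1) * (X - C lam) with hcdef
  have hcdeg : c.natDegree = 3 := by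
    rw [hcdef, natDegree_mul (mul_ne_zero X_ne_zero (X_sub_C_ne_zero 1)) (X_sub_C_ne_zero lam),
      natDegree_mul X_ne_zero (X_sub_C_ne_zero 1), natDegree_X, natDegree_X_sub_C,
      natDegree_X_sub_C]
  have hc0 : c ≠ 0 := by
    intro h
    rw [h] at hcdeg
    simp at hcdeg
  have hP0 : p ^ 2 - q ^ 2 * c ≠ 0 := by
    intro h
    have h1 := sub_eq_zero.1 h
    by_cases hq0 : q = 0
    · rw [hq0] at h1
      have : p = 0 := by simpa using h1
      rcases hne with h2 | h2
      · exact h2 this
      · exact h2 hq0
    · have h2 := congrArg natDegree h1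
      rw [natDegree_mul (pow_ne_zero _ hq0) hc0, natDegree_pow, natDegree_pow, hcdeg] at h2
      omega
  -- polynomials with constant coefficients
  have cmul : ∀ P Q : k[X], (∀ i, D (P.coeff i) = 0) → (∀ i, D (Q.coeff i) = 0) →
      ∀ i, D ((P * Q).coeff i) = 0 := by
    intro P Q h1 h2 i
    rw [coeff_mul, map_sum]
    refine Finset.sum_eq_zero fun j _ => ?_
    rw [D.leibniz, h1, h2]
    simp
  have csub : ∀ P Q : k[X], (∀ i, D (P.coeff i) = 0) → (∀ i, D (Q.coeff i) = 0) →
      ∀ i, D ((P - Q).coeff i) = 0 := by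
    intro P Q h1 h2 i
    rw [coeff_sub, map_sub, h1, h2, sub_zero]
  have cX : ∀ i, D ((X : k[X]).coeff i) = 0 := by
    intro i
    rw [coeff_X]
    split_ifs
    · exact D.map_one_eq_zero
    · exact map_zero D
  have cC : ∀ z : k, D z = 0 → ∀ i, D ((C z : k[X]).coeff i) = 0 := by
    intro z hz i
    rw [coeff_C]
    split_ifs
    · exact hz
    · exact map_zero D
  have hPc : ∀ i, D ((p ^ 2 - q ^ 2 * c).coeff i) = 0 := by
    rw [pow_two, pow_two]
    exact csub _ _ (cmul _ _ hpc hpc) (cmul _ _ (cmul _ _ hqc hqc)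
      (cmul _ _ (cmul _ _ cX (csub _ _ cX (cC 1 D.map_one_eq_zero))) (csub _ _ cX (cC lam hlam))))
  have hPa : (p ^ 2 - q ^ 2 * c).eval a = 0 := by
    have h1 : p.eval a = - (q.eval a * b) := eq_neg_of_add_eq_zero_left hpq
    simp only [hcdef, eval_sub, eval_mul, eval_pow, eval_X, eval_C, h1]
    linear_combination (q.eval a) ^ 2 * heq
  have hDa : D a = 0 := der_alg D a _ _ rfl hP0 hPc hPa
  refine ⟨hDa, ?_⟩
  have h1 := congrArg D heq
  rw [D.leibniz, D.leibniz, map_sub, map_sub, hDa, hlam, D.map_one_eq_zero, pow_two, D.leibniz] at h1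
  simp only [smul_eq_mul, mul_zero, sub_zero, add_zero] at h1
  have h2 : 2 * (b * D b) = 0 := by linear_combination h1
  rcases mul_eq_zero.1 ((mul_eq_zero.1 h2).resolve_left two_ne_zero) with h3 | h3
  · rw [h3, map_zero]
  · exact h3

end Pool.Agent.Q119.DP
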