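import Pool.Agent.Q35.DP.Plan

set_option autoImplicit false
set_option linter.unusedSectionVars false

namespace Pool.Agent.Q119.DP

open MvPolynomial Pool.Agent.Y166.DP

/-- Chain rule for a derivation that kills the coefficients. -/
theorem chain {K₀ K σ : Type} [Field K₀] [Field K] [Fintype σ] [DecidableEq σ] (φ : K₀ →+* K)
    (D : Derivation ℤ K K) (hD : ∀ a, D (φ a) = 0) (g : σ → K) (P : MvPolynomial σ K₀) :
    D (eval g (map φ P)) = ∑ i, eval g (map φ (pderiv i P)) * D (g i) := by
  induction P using MvPolynomial.induction_on with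
  | C a => simp [hD]
  | add p q hp hq =>
    rw [map_add, map_add, map_add, hp, hq, ← Finset.sum_add_distrib]
    refine Finset.sum_congr rfl fun i _ => ?_
    rw [map_add, map_add, map_add]
    ring
  | mul_X p j hp =>
    rw [map_mul, map_mul, D.leibniz, hp]
    simp only [map_X, eval_X, smul_eq_mul, Derivation.leibniz, pderiv_X, map_add, map_mul]
    simp only [add_mul, Finset.sum_add_distrib, Pi.single_apply]
    congr 1
    · rw [Finset.sum_eq_single j]
      · simp
      · intro i _ hij
        simp [hij.symm]
      · intro h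
        exact absurd (Finset.mem_univ _) h
    · rw [Finset.mul_sum]
      refine Finset.sum_congr rfl fun i _ => ?_
      ring

theorem nosurf : StmNoSurf := by
  intro K₀ K _ _ _ φ D₁ D₂ h1 h2 g hw n
  have : CharZero K₀ := φ.charZero
  induction n with
  | zero =>
    intro Ψ hh hne h0
    have hc : Ψ = C (coeff 0 Ψ) := by
      rw [← totalDegree_eq_zero_iff_eq_C]
      exact Nat.le_zero.1 hh.totalDegree_le
    rw [hc] at h0
    simp only [map_C, eval_C] at h0
    apply hne
    rw [hc, (map_eq_zero φ).1 h0, map_zero]
  | succ n ih =>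
    intro Ψ hh hne h0
    have eu := hh.sum_X_mul_pderiv
    set v : Fin 3 → K := fun i => eval g (map φ (pderiv i Ψ)) with hv
    have e0 : ∑ i, v i * g i = 0 := by
      have := congrArg (fun P => eval g (map φ P)) eu
      simp only [map_sum, map_mul, map_X, eval_X, map_nsmul] at this
      rw [h0, smul_zero] at this
      rw [← this]
      exact Finset.sum_congr rfl fun i _ => mul_comm _ _
    have e1 : ∑ i, v i * D₁ (g i) = 0 := by
      rw [← chain φ D₁ h1 g Ψ, h0, map_zero]
    have e2 : ∑ i, v i * D₂ (g i) = 0 := by
      rw [← chain φ D₂ h2 g Ψ, h0, map_zero]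
    have hv0 : v = 0 := by
      apply Matrix.eq_zero_of_mulVec_eq_zero hw
      funext j
      fin_cases j
      · simpa [Matrix.mulVec, dotProduct, Fin.sum_univ_three, mul_comm] using e0
      · simpa [Matrix.mulVec, dotProduct, Fin.sum_univ_three, mul_comm] using e1
      · simpa [Matrix.mulVec, dotProduct, Fin.sum_univ_three, mul_comm] using e2
    have hp : ∀ i, pderiv i Ψ = 0 := by
      intro i
      by_contra hi
      exact ih _ (by simpa using hh.pderiv (i := i)) hi (congrFun hv0 i)
    rw [Finset.sum_eq_zero (fun i _ => by rw [hp i, mul_zero])] at eu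
    have := (smul_eq_zero.1 eu.symm).resolve_left (Nat.succ_ne_zero n)
    exact hne this

end Pool.Agent.Q119.DP
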