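import Pool.Agent.Q35.DP.Plan

set_option autoImplicit false
set_option linter.unusedSectionVars false

namespace Pool.Agent.Q119.DP

open MvPolynomial Pool.Agent.Y166.DP

/-- A polynomial over the extension `K₀` that vanishes on a set of points over `k₀` vanishes at all
specializations. -/
theorem spec_aux {k₀ K₀ k K σ : Type} [Field k₀] [Field K₀] [Algebra k₀ K₀] [Field k] [Field K]
    [Algebra k K] [Algebra k₀ k] (φ : K₀ →+* K)
    (hφ : ∀ c : k₀, φ (algebraMap k₀ K₀ c) = algebraMap k K (algebraMap k₀ k c))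
    (ξ : σ → k) (Z : Set (σ → k₀))
    (hZ : ∀ F : MvPolynomial σ k₀, F ∈ van Z → aeval ξ F = 0)
    (G : MvPolynomial σ K₀) (hG : ∀ c ∈ Z, eval (fun i => algebraMap k₀ K₀ (c i)) G = 0) :
    eval₂ φ (fun i => algebraMap k K (ξ i)) G = 0 := by
  classical
  set b := Module.Basis.ofVectorSpace k₀ K₀ with hb
  -- the component polynomials
  set F : Module.Basis.ofVectorSpaceIndex k₀ K₀ → MvPolynomial σ k₀ := fun β =>
    ∑ m ∈ G.support, monomial m (b.repr (coeff m G) β) with hF
  have hFZ : ∀ β, F β ∈ van Z := by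
    intro β c hc
    have h1 := hG c hc
    rw [eval_eq] at h1
    have h2 := congrArg (fun z => b.repr z β) h1
    simp only [map_zero, Finsupp.coe_zero, Pi.zero_apply] at h2
    rw [map_sum, Finsupp.finsetSum_apply] at h2
    rw [hF, map_sum, ← h2]
    refine Finset.sum_congr rfl fun m _ => ?_
    rw [eval_monomial]
    have e : (coeff m G * ∏ i ∈ m.support, (algebraMap k₀ K₀ (c i)) ^ m i) =
        (∏ i ∈ m.support, (c i) ^ m i) • coeff m G := by
      rw [Algebra.smul_def, map_prod, mul_comm]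
      simp only [map_pow]
    rw [e, map_smul, Finsupp.smul_apply, smul_eq_mul, mul_comm]
    rfl
  set s : Finset (Module.Basis.ofVectorSpaceIndex k₀ K₀) :=
    G.support.biUnion fun m => (b.repr (coeff m G)).support with hs
  have hexp : ∀ m ∈ G.support, coeff m G = ∑ β ∈ s, algebraMap k₀ K₀ (b.repr (coeff m G) β) * b β := by
    intro m hm
    conv_lhs => rw [← b.linearCombination_repr (coeff m G)]
    rw [Finsupp.linearCombination_apply, Finsupp.sum_of_support_subset (s := s)]
    · exact Finset.sum_congr rfl fun β _ => Algebra.smul_def _ _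
    · exact Finset.subset_biUnion_of_mem (fun m => (b.repr (coeff m G)).support) hm
    · intro β _
      rw [zero_smul]
  rw [eval₂_eq]
  have h3 : ∀ m ∈ G.support, φ (coeff m G) * ∏ i ∈ m.support, (algebraMap k K (ξ i)) ^ m i =
      ∑ β ∈ s, φ (b β) * algebraMap k K (algebraMap k₀ k (b.repr (coeff m G) β) *
        ∏ i ∈ m.support, (ξ i) ^ m i) := by
    intro m hm
    conv_lhs => rw [hexp m hm]
    rw [map_sum, Finset.sum_mul]
    refine Finset.sum_congr rfl fun β _ => ?_
    rw [map_mul, hφ, map_mul, map_prod]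
    simp only [map_pow]
    ring
  rw [Finset.sum_congr rfl h3, Finset.sum_comm]
  refine Finset.sum_eq_zero fun β _ => ?_
  rw [← Finset.mul_sum, ← map_sum]
  have h4 := hZ (F β) (hFZ β)
  rw [hF, map_sum] at h4
  have h5 : ∑ m ∈ G.support, (algebraMap k₀ k (b.repr (coeff m G) β) *
        ∏ i ∈ m.support, (ξ i) ^ m i) = 0 := by
    rw [← h4]
    refine Finset.sum_congr rfl fun m _ => ?_
    rw [aeval_monomial]
    rfl
  rw [h5, map_zero, mul_zero]

theorem surf : StmSurf := by
  intro k₀ K₀ k K _ _ _ _ _ _ _ x₀ y₀ φ d hφ ξ Z hZ Ψ hΨ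
  set u : Fin 3 → MvPolynomial (Idx d) K₀ := fun i =>
    ∑ j : Fin (d + 1), C (fn x₀ y₀ j) * X (.inl (i, j)) with hu
  have hmapfn : ∀ j : ℕ, φ (fn x₀ y₀ j) = fn (φ x₀) (φ y₀) j := by
    intro j
    unfold fn
    split_ifs <;> simp
  have h1 := spec_aux φ hφ ξ Z hZ (bind₁ u Ψ) (by
    intro c hc
    rw [← hΨ c hc, ← coe_aeval_eq_eval, RingHom.coe_coe, aeval_bind₁]
    rw [← coe_aeval_eq_eval, RingHom.coe_coe]
    congr 2
    funext i
    rw [hu]
    simp only [map_sum, map_mul, aeval_X, algHom_C]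
    unfold gv fsum
    refine Finset.sum_congr rfl fun j _ => ?_
    simp [mul_comm])
  have h2 : eval₂ φ (fun i => algebraMap k K (ξ i)) (bind₁ u Ψ) =
      eval₂ φ (gv (φ x₀) (φ y₀) ξ) Ψ := by
    have := eval₂Hom_bind₁ (f := φ) (g := fun i => algebraMap k K (ξ i)) u Ψ
    rw [coe_eval₂Hom] at this
    rw [this]
    simp only [coe_eval₂Hom]
    congr 1
    funext i
    rw [hu]
    simp only [eval₂_sum, eval₂_mul, eval₂_C, eval₂_X]
    unfold gv fsum
    refine Finset.sum_congr rfl fun j _ => ?_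
    rw [hmapfn, mul_comm]
  rw [eval_map, ← h2, h1]

end Pool.Agent.Q119.DP
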